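import Pool.Agent.W283.WS.Defs

set_option autoImplicit false

/-!
# The removal lemma for flag complexes

If the link of a vertex `v` contains a clique `R` such that every clique of the link has a common
closed neighbour in `R`, then deleting `v` is a strong deformation retraction: layer cake formula.
-/

open MeasureTheory Filter Topology

namespace Pool.Agent.W296.WS.Rem

section
variable {V : Type} [Fintype V]

open Classical in
/-- superlevel set -/
noncomputable def lev (x : V → ℝ) (τ : ℝ) : Finset V := Finset.univ.filter (fun n => τ < x n)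

theorem mem_lev {x : V → ℝ} {τ : ℝ} {n : V} : n ∈ lev x τ ↔ τ < x n := by
  simp [lev]

theorem lev_congr {x y : V → ℝ} {τ : ℝ} (h : ∀ n, τ < x n ↔ τ < y n) : lev x τ = lev y τ := by
  ext n
  rw [mem_lev, mem_lev, h]

/-- the integrand -/
noncomputable def phi (g : Finset V → ℝ) (p : (V → ℝ) × ℝ) (τ : ℝ) : ℝ :=
  haveI := Classical.propDecidable (τ < p.2)
  if τ < p.2 then g (lev p.1 τ) else 0

/-- the integral -/
noncomputable def Phi (g : Finset V → ℝ) (p : (V → ℝ) × ℝ) : ℝ :=
  ∫ τ in Set.Ioo (0 : ℝ) 1, phi g p τ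

theorem phi_of_lt {g : Finset V → ℝ} {p : (V → ℝ) × ℝ} {τ : ℝ} (h : τ < p.2) :
    phi g p τ = g (lev p.1 τ) := by
  unfold phi; rw [if_pos h]

theorem phi_of_ge {g : Finset V → ℝ} {p : (V → ℝ) × ℝ} {τ : ℝ} (h : ¬ τ < p.2) :
    phi g p τ = 0 := by
  unfold phi; rw [if_neg h]

theorem measurable_lev (g : Finset V → ℝ) (x : V → ℝ) : Measurable (fun τ => g (lev x τ)) := by
  let _ : MeasurableSpace (Finset V) := ⊤
  have h1 : Measurable (lev x) := by
    apply measurable_to_countable'
    intro F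
    have : lev x ⁻¹' {F} = ⋂ n : V, {τ : ℝ | τ < x n ↔ n ∈ F} := by
      ext τ
      simp only [Set.mem_preimage, Set.mem_singleton_iff, Set.mem_iInter, Set.mem_ofPred_eq]
      constructor
      · rintro rfl n
        exact mem_lev.symm
      · intro h
        ext n
        rw [mem_lev, h]
    rw [this]
    apply MeasurableSet.iInter
    intro n
    by_cases hn : n ∈ F
    · have : {τ : ℝ | τ < x n ↔ n ∈ F} = Set.Iio (x n) := by ext τ; simp [hn]
      rw [this]; exact measurableSet_Iio
    · have : {τ : ℝ | τ < x n ↔ n ∈ F} = Set.Ici (x n) := by ext τ; simp [hn]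
      rw [this]; exact measurableSet_Ici
  exact (measurable_from_top (f := g)).comp h1

theorem measurable_phi (g : Finset V → ℝ) (p : (V → ℝ) × ℝ) : Measurable (phi g p) := by
  unfold phi
  exact Measurable.ite measurableSet_Iio (measurable_lev g p.1) measurable_const

open Classical in
theorem phi_bound (g : Finset V → ℝ) (p : (V → ℝ) × ℝ) (τ : ℝ) :
    ‖phi g p τ‖ ≤ ∑ F : Finset V, |g F| := by
  by_cases h : τ < p.2
  · rw [phi_of_lt h, Real.norm_eq_abs]
    exact Finset.single_le_sum (f := fun F => |g F|) (fun F _ => abs_nonneg _) (Finset.mem_univ _)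
  · rw [phi_of_ge h, norm_zero]
    exact Finset.sum_nonneg (fun F _ => abs_nonneg _)

theorem integrable_phi (g : Finset V → ℝ) (p : (V → ℝ) × ℝ) :
    Integrable (phi g p) (volume.restrict (Set.Ioo (0 : ℝ) 1)) := by
  classical
  have : IsFiniteMeasure (volume.restrict (Set.Ioo (0 : ℝ) 1)) :=
    ⟨by rw [Measure.restrict_apply_univ]; simp⟩
  exact Integrable.mono' (integrable_const (∑ F : Finset V, |g F|))
    (measurable_phi g p).aestronglyMeasurable
    (Eventually.of_forall (fun τ => phi_bound g p τ))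

theorem ev_iff {Y : Type} [TopologicalSpace Y] {f : Y → ℝ} {p0 : Y} (hf : ContinuousAt f p0)
    {τ : ℝ} (h : f p0 ≠ τ) : ∀ᶠ p in 𝓝 p0, (τ < f p ↔ τ < f p0) := by
  rcases lt_or_gt_of_ne h with h1 | h1
  · filter_upwards [hf.eventually (gt_mem_nhds h1)] with p hp
    constructor
    · intro h2; exact absurd h2 (not_lt.2 (le_of_lt hp))
    · intro h2; exact absurd h2 (not_lt.2 h1.le)
  · filter_upwards [hf.eventually (lt_mem_nhds h1)] with p hp
    exact ⟨fun _ => h1, fun _ => hp⟩

theorem continuous_Phi (g : Finset V → ℝ) : Continuous (Phi g) := by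
  classical
  rw [continuous_iff_continuousAt]
  intro p0
  have : IsFiniteMeasure (volume.restrict (Set.Ioo (0 : ℝ) 1)) :=
    ⟨by rw [Measure.restrict_apply_univ]; simp⟩
  unfold Phi
  refine continuousAt_of_dominated (bound := fun _ => ∑ F : Finset V, |g F|) ?_ ?_ ?_ ?_
  · exact Eventually.of_forall (fun p => (measurable_phi g p).aestronglyMeasurable)
  · exact Eventually.of_forall (fun p => Eventually.of_forall (fun τ => phi_bound g p τ))
  · exact integrable_const _
  · have hfin : (insert p0.2 (Set.range p0.1)).Finite := (Set.finite_range p0.1).insert _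
    have hnull : ∀ᵐ τ ∂(volume.restrict (Set.Ioo (0 : ℝ) 1)), τ ∉ insert p0.2 (Set.range p0.1) := by
      apply ae_restrict_of_ae
      exact hfin.countable.ae_notMem volume
    filter_upwards [hnull] with τ hτ
    have h1 : p0.2 ≠ τ := fun h => hτ (Or.inl h.symm)
    have h2 : ∀ n, p0.1 n ≠ τ := fun n h => hτ (Or.inr ⟨n, h⟩)
    have e1 := ev_iff (f := fun p : (V → ℝ) × ℝ => p.2) (p0 := p0) continuous_snd.continuousAt h1
    have e2 : ∀ᶠ p in 𝓝 p0, ∀ n, (τ < p.1 n ↔ τ < p0.1 n) := by
      rw [eventually_all]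
      intro n
      exact ev_iff (f := fun p : (V → ℝ) × ℝ => p.1 n) (p0 := p0)
        ((continuous_apply n).comp continuous_fst).continuousAt (h2 n)
    have e3 : (fun _ : (V → ℝ) × ℝ => phi g p0 τ) =ᶠ[𝓝 p0] (fun p => phi g p τ) := by
      filter_upwards [e1, e2] with p hp1 hp2
      by_cases h : τ < p0.2
      · rw [phi_of_lt h, phi_of_lt (hp1.2 h), lev_congr hp2]
      · rw [phi_of_ge h, phi_of_ge (fun h' => h (hp1.1 h'))]
    exact continuousAt_const.congr e3

theorem Phi_nonneg {g : Finset V → ℝ} (hg : ∀ F, 0 ≤ g F) (p : (V → ℝ) × ℝ) : 0 ≤ Phi g p := by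
  apply integral_nonneg
  intro τ
  by_cases h : τ < p.2
  · rw [phi_of_lt h]; exact hg _
  · rw [phi_of_ge h]; exact le_rfl

theorem Phi_ne {g : Finset V → ℝ} {p : (V → ℝ) × ℝ} (h : Phi g p ≠ 0) :
    ∃ τ, 0 < τ ∧ τ < p.2 ∧ g (lev p.1 τ) ≠ 0 := by
  by_contra hc
  push Not at hc
  apply h
  apply setIntegral_eq_zero_of_forall_eq_zero
  intro τ hτ
  by_cases h2 : τ < p.2
  · rw [phi_of_lt h2]; exact hc τ hτ.1 h2
  · exact phi_of_ge h2

theorem integral_lt {c : ℝ} (h0 : 0 ≤ c) (h1 : c ≤ 1) :
    ∫ τ in Set.Ioo (0 : ℝ) 1, (Set.Iio c).indicator (fun _ => (1 : ℝ)) τ = c := by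
  rw [setIntegral_indicator measurableSet_Iio]
  have : Set.Ioo (0 : ℝ) 1 ∩ Set.Iio c = Set.Ioo 0 c := by
    ext τ
    simp only [Set.mem_inter_iff, Set.mem_Ioo, Set.mem_Iio]
    constructor
    · rintro ⟨⟨h2, _⟩, h4⟩; exact ⟨h2, h4⟩
    · rintro ⟨h2, h3⟩; exact ⟨⟨h2, lt_of_lt_of_le h3 h1⟩, h3⟩
  rw [this]
  simp [h0]

theorem Phi_card {x : V → ℝ} {t : ℝ} (hx0 : ∀ n, 0 ≤ x n) (ht0 : 0 ≤ t) (ht1 : t ≤ 1) :
    Phi (fun F => (F.card : ℝ)) (x, t) = ∑ n, min (x n) t := by
  classical
  unfold Phi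
  have h1 : ∀ τ : ℝ, phi (fun F : Finset V => (F.card : ℝ)) (x, t) τ =
      ∑ n, (Set.Iio (min (x n) t)).indicator (fun _ => (1 : ℝ)) τ := by
    intro τ
    by_cases h : τ < t
    · rw [phi_of_lt h]
      simp only [lev, Finset.card_filter]
      push_cast
      apply Finset.sum_congr rfl
      intro n _
      by_cases hn : τ < x n
      · simp [hn, h]
      · simp [hn]
    · rw [phi_of_ge h]
      symm
      apply Finset.sum_eq_zero
      intro n _
      simp [h]
  simp only [h1]
  rw [integral_finsetSum]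
  · apply Finset.sum_congr rfl
    intro n _
    exact integral_lt (le_min (hx0 n) ht0) ((min_le_right _ _).trans ht1)
  · intro n _
    have : IsFiniteMeasure (volume.restrict (Set.Ioo (0 : ℝ) 1)) :=
      ⟨by rw [Measure.restrict_apply_univ]; simp⟩
    exact (integrable_const (1 : ℝ)).indicator measurableSet_Iio

theorem sum_Phi (g : V → Finset V → ℝ) (p : (V → ℝ) × ℝ) :
    ∑ n, Phi (g n) p = Phi (fun F => ∑ n, g n F) p := by
  unfold Phi
  rw [← integral_finsetSum _ (fun n _ => integrable_phi (g n) p)]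
  congr 1
  funext τ
  by_cases h : τ < p.2
  · rw [phi_of_lt h]
    apply Finset.sum_congr rfl
    intro n _
    rw [phi_of_lt h]
  · rw [phi_of_ge h]
    apply Finset.sum_eq_zero
    intro n _
    rw [phi_of_ge h]

open Classical in
/-- mass distribution -/
noncomputable def gg (rr : Finset V → V) (v : V) (n : V) (F : Finset V) : ℝ :=
  if rr (F.erase v) = n then (F.card : ℝ) else 0

theorem gg_nonneg (rr : Finset V → V) (v n : V) (F : Finset V) : 0 ≤ gg rr v n F := by
  unfold gg
  split_ifs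
  · exact Nat.cast_nonneg _
  · exact le_rfl

theorem sum_gg (rr : Finset V → V) (v : V) (F : Finset V) :
    ∑ n, gg rr v n F = (F.card : ℝ) := by
  classical
  unfold gg
  simp

/-- the homotopy -/
noncomputable def HH (rr : Finset V → V) (v : V) (p : (V → ℝ) × ℝ) : V → ℝ := fun n =>
  p.1 n - min (p.1 n) (min p.2 (p.1 v)) + Phi (gg rr v n) (p.1, min p.2 (p.1 v))

theorem continuous_HH (rr : Finset V → V) (v : V) : Continuous (HH rr v) := by
  apply continuous_pi
  intro n
  have c1 : Continuous (fun p : (V → ℝ) × ℝ => p.1 n) := (continuous_apply n).comp continuous_fst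
  have c2 : Continuous (fun p : (V → ℝ) × ℝ => p.1 v) := (continuous_apply v).comp continuous_fst
  have c3 : Continuous (fun p : (V → ℝ) × ℝ => min p.2 (p.1 v)) := continuous_snd.min c2
  exact (c1.sub (c1.min c3)).add ((continuous_Phi _).comp (continuous_fst.prodMk c3))

end

open Classical in
theorem removal : WSep.Removal := by
  intro V _ adj S v R hsym hvS hR hRR hF
  -- choice function
  have : ∃ rr : Finset V → V, ∀ F : Finset V, (∀ u ∈ F, u ∈ S ∧ u ≠ v ∧ adj v u) →
      (∀ u ∈ F, ∀ w ∈ F, u = w ∨ adj u w) → rr F ∈ R ∧ ∀ u ∈ F, u = rr F ∨ adj u (rr F) := by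
    refine ⟨fun F => if h : (∀ u ∈ F, u ∈ S ∧ u ≠ v ∧ adj v u) ∧
      (∀ u ∈ F, ∀ w ∈ F, u = w ∨ adj u w) then (hF F h.1 h.2).choose else v, ?_⟩
    intro F h1 h2
    have h12 : (∀ u ∈ F, u ∈ S ∧ u ≠ v ∧ adj v u) ∧
      (∀ u ∈ F, ∀ w ∈ F, u = w ∨ adj u w) := ⟨h1, h2⟩
    dsimp only
    rw [dif_pos h12]
    exact (hF F h12.1 h12.2).choose_spec
  obtain ⟨rr, hrr⟩ := this
  -- basic facts on points of FX adj S
  have levF : ∀ x ∈ WSep.FX adj S, ∀ τ, 0 < τ → τ < x v →
      rr ((lev x τ).erase v) ∈ R ∧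
        ∀ u ∈ (lev x τ).erase v, u = rr ((lev x τ).erase v) ∨ adj u (rr ((lev x τ).erase v)) := by
    intro x hx τ h0 hv
    obtain ⟨x0, xs, xS, xa⟩ := hx
    apply hrr
    · intro u hu
      rw [Finset.mem_erase, mem_lev] at hu
      have hu0 : x u ≠ 0 := by linarith
      have hv0 : x v ≠ 0 := by linarith
      refine ⟨xS u hu0, hu.1, ?_⟩
      rcases xa v u hv0 hu0 with h | h
      · exact absurd h.symm hu.1
      · exact h
    · intro u hu w hw
      rw [Finset.mem_erase, mem_lev] at hu hw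
      exact xa u w (by linarith) (by linarith)
  -- structure of the support of HH
  have supp : ∀ x ∈ WSep.FX adj S, ∀ s : ℝ, ∀ n, HH rr v (x, s) n ≠ 0 →
      (min s (x v) < x n) ∨ (∃ τ, 0 < τ ∧ τ < min s (x v) ∧ rr ((lev x τ).erase v) = n) := by
    intro x hx s n hn
    by_contra hc
    push Not at hc
    apply hn
    unfold HH
    simp only
    have h1 : x n - min (x n) (min s (x v)) = 0 := by rw [min_eq_left hc.1]; ring
    have h2 : Phi (gg rr v n) (x, min s (x v)) = 0 := by
      by_contra h2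
      obtain ⟨τ, t1, t2, t3⟩ := Phi_ne h2
      apply hc.2 τ t1 t2
      by_contra h3
      apply t3
      unfold gg
      rw [if_neg h3]
    rw [h1, h2, add_zero]
  have mem : ∀ x ∈ WSep.FX adj S, ∀ s : ℝ, 0 ≤ s → s ≤ 1 →
      HH rr v (x, s) ∈ WSep.FX adj S := by
    intro x hx s hs0 hs1
    have hx' := hx
    obtain ⟨x0, xs, xS, xa⟩ := hx'
    have ht0 : 0 ≤ min s (x v) := le_min hs0 (x0 v)
    have ht1 : min s (x v) ≤ 1 := (min_le_left _ _).trans hs1
    refine ⟨?_, ?_, ?_, ?_⟩
    · intro n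
      unfold HH
      have h1 := min_le_left (x n) (min s (x v))
      have h2 := Phi_nonneg (gg_nonneg rr v n) (x, min s (x v))
      simp only
      linarith
    · unfold HH
      rw [Finset.sum_add_distrib, Finset.sum_sub_distrib, sum_Phi]
      simp only [sum_gg]
      rw [Phi_card x0 ht0 ht1, xs]
      ring
    · intro n hn
      rcases supp x hx s n hn with h | ⟨τ, t1, t2, t3⟩
      · exact xS n (by linarith)
      · rw [← t3]
        exact (hR _ (levF x hx τ t1 (lt_of_lt_of_le t2 (min_le_right _ _))).1).1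
    · -- adjacency
      have mixed : ∀ n τ, min s (x v) < x n → 0 < τ → τ < min s (x v) →
          n = rr ((lev x τ).erase v) ∨ adj n (rr ((lev x τ).erase v)) := by
        intro n τ h t1 t2
        have hl := levF x hx τ t1 (lt_of_lt_of_le t2 (min_le_right _ _))
        by_cases hnv : n = v
        · right
          rw [hnv]
          exact (hR _ hl.1).2.2
        · exact hl.2 n (Finset.mem_erase.2 ⟨hnv, mem_lev.2 (lt_trans t2 h)⟩)
      intro n m hn hm
      rcases supp x hx s n hn with h | ⟨τ, t1, t2, t3⟩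
      · rcases supp x hx s m hm with h' | ⟨τ', t1', t2', t3'⟩
        · exact xa n m (by linarith) (by linarith)
        · rw [← t3']
          exact mixed n τ' h t1' t2'
      · rcases supp x hx s m hm with h' | ⟨τ', t1', t2', t3'⟩
        · rw [← t3]
          rcases mixed m τ h' t1 t2 with h3 | h3
          · exact Or.inl h3.symm
          · exact Or.inr (hsym _ _ h3)
        · rw [← t3, ← t3']
          exact hRR _ (levF x hx τ t1 (lt_of_lt_of_le t2 (min_le_right _ _))).1 _
            (levF x hx τ' t1' (lt_of_lt_of_le t2' (min_le_right _ _))).1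
  have mem1 : ∀ x ∈ WSep.FX adj S, HH rr v (x, 1) ∈ WSep.FX adj (S \ {v}) := by
    intro x hx
    have hm := mem x hx 1 zero_le_one le_rfl
    refine ⟨hm.1, hm.2.1, ?_, hm.2.2.2⟩
    intro n hn
    refine ⟨hm.2.2.1 n hn, ?_⟩
    intro hnv
    rw [Set.mem_singleton_iff] at hnv
    subst hnv
    have hxn1 : x n ≤ 1 := by
      have := Finset.single_le_sum (f := x) (fun i _ => hx.1 i) (Finset.mem_univ n)
      rw [hx.2.1] at this
      exact this
    rcases supp x hx 1 n hn with h | ⟨τ, t1, t2, t3⟩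
    · rw [min_eq_right hxn1] at h
      exact lt_irrefl _ h
    · have := (hR _ (levF x hx τ t1 (lt_of_lt_of_le t2 (min_le_right _ _))).1).2.1
      exact this t3
  have id0 : ∀ x ∈ WSep.FX adj S, HH rr v (x, 0) = x := by
    intro x hx
    funext n
    unfold HH
    simp only
    rw [min_eq_left (hx.1 v), min_eq_right (hx.1 n)]
    have h2 : Phi (gg rr v n) (x, 0) = 0 := by
      by_contra h2
      obtain ⟨τ, t1, t2, _⟩ := Phi_ne h2
      exact lt_asymm t1 t2
    rw [h2]
    ring
  have idA : ∀ x ∈ WSep.FX adj (S \ {v}), ∀ s, 0 ≤ s → HH rr v (x, s) = x := by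
    intro x hx s hs
    have hxv : x v = 0 := by
      by_contra h
      exact (hx.2.2.1 v h).2 rfl
    funext n
    unfold HH
    simp only
    rw [hxv, min_eq_right hs, min_eq_right (hx.1 n)]
    have h2 : Phi (gg rr v n) (x, 0) = 0 := by
      by_contra h2
      obtain ⟨τ, t1, t2, _⟩ := Phi_ne h2
      exact lt_asymm t1 t2
    rw [h2]
    ring
  have incl : ∀ x ∈ WSep.FX adj (S \ {v}), x ∈ WSep.FX adj S := fun x hx =>
    ⟨hx.1, hx.2.1, fun n hn => (hx.2.2.1 n hn).1, hx.2.2.2⟩
  let f : C(WSep.FX adj S, WSep.FX adj (S \ {v})) :=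
    ⟨fun x => ⟨HH rr v (x.1, 1), mem1 x.1 x.2⟩, by
      apply Continuous.subtype_mk
      exact (continuous_HH rr v).comp (continuous_subtype_val.prodMk continuous_const)⟩
  let g : C(WSep.FX adj (S \ {v}), WSep.FX adj S) :=
    ⟨fun x => ⟨x.1, incl x.1 x.2⟩, by
      apply Continuous.subtype_mk
      exact continuous_subtype_val⟩
  refine ⟨⟨f, g, ?_, ?_⟩⟩
  · -- g ∘ f ~ id
    refine ContinuousMap.Homotopic.symm ⟨?_⟩
    exact
      { toFun := fun q => ⟨HH rr v (q.2.1, (q.1 : ℝ)), mem q.2.1 q.2.2 q.1 q.1.2.1 q.1.2.2⟩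
        continuous_toFun := by
          apply Continuous.subtype_mk
          exact (continuous_HH rr v).comp
            ((continuous_subtype_val.comp continuous_snd).prodMk
              (continuous_subtype_val.comp continuous_fst))
        map_zero_left := by
          intro x
          apply Subtype.ext
          exact id0 x.1 x.2
        map_one_left := by
          intro x
          rfl }
  · have : f.comp g = ContinuousMap.id _ := by
      ext1 x
      apply Subtype.ext
      exact idA x.1 x.2 1 zero_le_one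
    rw [this]

end Pool.Agent.W296.WS.Rem
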