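import Pool.Agent.W296.WS.Core

set_option autoImplicit false

/-!
# The apex lemma for finite sets
-/

namespace Pool.Agent.W296.WS

/-- The sets `v` and `w` cross. -/
def Cr (v w : Finset ℕ) : Prop := ∃ a b c d : ℕ, a < b ∧ b < c ∧ c < d ∧
  ((a ∈ v \ w ∧ b ∈ w \ v ∧ c ∈ v \ w ∧ d ∈ w \ v) ∨
    (a ∈ w \ v ∧ b ∈ v \ w ∧ c ∈ w \ v ∧ d ∈ v \ w))

theorem Cr.symm {v w : Finset ℕ} (h : Cr v w) : Cr w v := by
  obtain ⟨a, b, c, d, h1, h2, h3, h4⟩ := h
  exact ⟨a, b, c, d, h1, h2, h3, h4.symm⟩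

theorem not_Cr_self (v : Finset ℕ) : ¬ Cr v v := by
  rintro ⟨a, b, c, d, _, _, _, h | h⟩ <;> simp at h

/-- indicator -/
def ind (J : Finset ℕ) (m : ℕ) : ℤ := if m ∈ J then 1 else 0

theorem ind_cases (J : Finset ℕ) (m : ℕ) : (ind J m = 1 ∧ m ∈ J) ∨ (ind J m = 0 ∧ m ∉ J) := by
  unfold ind
  by_cases h : m ∈ J
  · left; simp [h]
  · right; simp [h]

/-- the residue -/
def res (n : ℕ) (a : ℤ) : ℕ := (a % (n : ℤ)).toNat

theorem res_add (n : ℕ) (a : ℤ) : res n (a + n) = res n a := by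
  unfold res; rw [Int.add_emod_right]

theorem res_of_lt {n : ℕ} {a : ℤ} (h0 : 0 ≤ a) (h1 : a < n) : res n a = a.toNat := by
  unfold res; rw [Int.emod_eq_of_lt h0 h1]

theorem res_of_lt2 {n : ℕ} {a : ℤ} (h0 : (n : ℤ) ≤ a) (h1 : a < n + n) :
    res n a = (a - n).toNat := by
  have := res_add n (a - n)
  rw [sub_add_cancel] at this
  rw [this, res_of_lt (by omega) (by omega)]

theorem res_mul (n : ℕ) (a k : ℤ) : res n (a + k * n) = res n a := by
  unfold res; rw [Int.add_mul_emod_self_right]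

theorem res_natCast {n x : ℕ} (h : x < n) : res n (x : ℤ) = x := by
  rw [res_of_lt (by omega) (by omega)]; simp

/-- difference vector -/
def dv (n : ℕ) (J K : Finset ℕ) (a : ℤ) : ℤ := ind J (res n a) - ind K (res n a)

theorem dv_add (n : ℕ) (J K : Finset ℕ) (a : ℤ) : dv n J K (a + n) = dv n J K a := by
  unfold dv; rw [res_add]

theorem dv_pos {n : ℕ} {J K : Finset ℕ} {a : ℤ} (h : 0 < dv n J K a) :
    res n a ∈ J \ K := by
  unfold dv at h
  rw [Finset.mem_sdiff]
  rcases ind_cases J (res n a) with ⟨h1, h2⟩ | ⟨h1, h2⟩ <;>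
    rcases ind_cases K (res n a) with ⟨h3, h4⟩ | ⟨h3, h4⟩ <;> rw [h1, h3] at h
  · omega
  · exact ⟨h2, h4⟩
  · omega
  · omega

theorem dv_neg {n : ℕ} {J K : Finset ℕ} {a : ℤ} (h : dv n J K a < 0) :
    res n a ∈ K \ J := by
  apply dv_pos (n := n) (J := K) (K := J) (a := a)
  unfold dv at h ⊢
  omega

theorem nc_dv {n : ℕ} {J K : Finset ℕ} (h : ¬ Cr J K) : NC n (dv n J K) := by
  intro a b c d hab hbc hcd hda pa nb pc nd
  apply h
  have hn : (0 : ℤ) < n := by omega
  -- shift into [0, n)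
  set k := a / (n : ℤ) with hk
  have e : a % (n : ℤ) + (n : ℤ) * k = a := Int.emod_add_mul_ediv a (n : ℤ)
  have h0 := Int.emod_nonneg a hn.ne'
  have h1 := Int.emod_lt_of_pos a hn
  have sh : ∀ t, dv n J K (t + (-k) * n) = dv n J K t := fun t => by
    unfold dv; rw [res_mul]
  have hkn : (-k) * (n : ℤ) = -((n : ℤ) * k) := by ring
  rw [← sh a] at pa
  rw [← sh b] at nb
  rw [← sh c] at pc
  rw [← sh d] at nd
  generalize ha' : a + (-k) * n = a' at pa
  generalize hb' : b + (-k) * n = b' at nb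
  generalize hc' : c + (-k) * n = c' at pc
  generalize hd' : d + (-k) * n = d' at nd
  have A := dv_pos pa
  have B := dv_neg nb
  have C := dv_pos pc
  have D := dv_neg nd
  have r1 : 0 ≤ a' := by omega
  have r2 : a' < n := by omega
  have r3 : a' < b' := by omega
  have r4 : b' < c' := by omega
  have r5 : c' < d' := by omega
  have r6 : d' < a' + n := by omega
  rw [res_of_lt r1 r2] at A
  rcases lt_or_ge d' n with hd | hd
  · rw [res_of_lt (by omega) (by omega)] at B C D
    exact ⟨_, _, _, _, by omega, by omega, by omega, Or.inl ⟨A, B, C, D⟩⟩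
  · rw [res_of_lt2 hd (by omega)] at D
    rcases lt_or_ge c' n with hc | hc
    · rw [res_of_lt (by omega) (by omega)] at B C
      exact ⟨_, _, _, _, by omega, by omega, by omega, Or.inr ⟨D, A, B, C⟩⟩
    · rw [res_of_lt2 hc (by omega)] at C
      rcases lt_or_ge b' n with hb | hb
      · rw [res_of_lt (by omega) (by omega)] at B
        exact ⟨_, _, _, _, by omega, by omega, by omega, Or.inl ⟨C, D, A, B⟩⟩
      · rw [res_of_lt2 hb (by omega)] at B
        exact ⟨_, _, _, _, by omega, by omega, by omega, Or.inr ⟨B, C, D, A⟩⟩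

/-- a crossing created at a zero gives a gap -/
theorem gap_of {n : ℤ} {s : ℤ → ℤ} (per : ∀ a, s (a + n) = s a)
    (val : ∀ a, s a = 0 ∨ s a = 1 ∨ s a = -1) (nc : NC n s) {p x q r : ℤ} (h1 : p < x)
    (h2 : x < q) (h3 : q < r) (h4 : r < p + n) (sp : s p = -1) (sx : s x = 0) (sq : s q = -1)
    (sr : s r = 1) : ∃ y y', IsGap n s y y' ∧ y < x ∧ x < y' := by
  obtain ⟨y, y1, y2, y3, y4⟩ := exists_prev (s := s) h1 (by omega)
  obtain ⟨y', z1, z2, z3, z4⟩ := exists_next (s := s) h2 (by omega)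
  have hspn : s (p + n) < 0 := by rw [per, sp]; norm_num
  have sy : s y = -1 := by
    rcases val y with h | h | h
    · exact absurd h y3
    · exfalso
      have : p ≠ y := by rintro rfl; omega
      exact nc y q r (p + n) (by omega) h3 h4 (by omega) (by omega) (by omega) (by omega) hspn
    · exact h
  have sy' : s y' = -1 := by
    rcases val y' with h | h | h
    · exact absurd h z3
    · exfalso
      have : q ≠ y' := by rintro rfl; omega
      exact nc y' q r (p + n) (by omega) h3 h4 (by omega) (by omega) (by omega) (by omega) hspn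
    · exact h
  refine ⟨y, y', ⟨by omega, by omega, sy, sy', ?_, r, sr⟩, y2, z2⟩
  intro a ha hb
  rcases lt_trichotomy a x with h | h | h
  · exact y4 a ha h
  · rw [h]; exact sx
  · exact z4 a h hb

theorem dv_eq {n : ℕ} {J K : Finset ℕ} {x : ℕ} (hx : x < n) :
    dv n J K (x : ℤ) = ind J x - ind K x := by
  unfold dv; rw [res_natCast hx]

theorem dv_val (n : ℕ) (J K : Finset ℕ) (a : ℤ) :
    dv n J K a = 0 ∨ dv n J K a = 1 ∨ dv n J K a = -1 := by
  unfold dv
  rcases ind_cases J (res n a) with ⟨h1, h2⟩ | ⟨h1, h2⟩ <;>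
    rcases ind_cases K (res n a) with ⟨h3, h4⟩ | ⟨h3, h4⟩ <;> rw [h1, h3] <;> norm_num

theorem cov_of_cr {n : ℕ} {I J : Finset ℕ} (hI : I ⊆ Finset.range n) (hJ : J ⊆ Finset.range n)
    (hIJ : ¬ Cr J I) {x : ℕ} (hx : x ∈ I) (h : Cr J (I.erase x)) :
    ∃ y y', IsGap n (dv n J I) y y' ∧ y < x ∧ x < y' := by
  obtain ⟨a, b, c, d, hab, hbc, hcd, h⟩ := h
  have hxn : x < n := Finset.mem_range.1 (hI hx)
  -- membership facts
  have plus : ∀ t, t ∈ J \ I.erase x → t ≠ x → dv n J I (t : ℤ) = 1 := by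
    intro t ht htx
    rw [Finset.mem_sdiff] at ht
    have htn : t < n := Finset.mem_range.1 (hJ ht.1)
    rw [dv_eq htn]
    have : t ∉ I := fun h' => ht.2 (Finset.mem_erase.2 ⟨htx, h'⟩)
    simp [ind, ht.1, this]
  have xz : x ∈ J \ I.erase x → dv n J I (x : ℤ) = 0 := by
    intro ht
    rw [Finset.mem_sdiff] at ht
    rw [dv_eq hxn]
    simp [ind, ht.1, hx]
  have minus : ∀ t, t ∈ I.erase x \ J → dv n J I (t : ℤ) = -1 := by
    intro t ht
    rw [Finset.mem_sdiff, Finset.mem_erase] at ht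
    have htn : t < n := Finset.mem_range.1 (hI ht.1.2)
    rw [dv_eq htn]
    simp [ind, ht.1.2, ht.2]
  have lt_of : ∀ t, t ∈ J \ I.erase x → t < n := fun t ht =>
    Finset.mem_range.1 (hJ (Finset.mem_sdiff.1 ht).1)
  have lt_of' : ∀ t, t ∈ I.erase x \ J → t < n := fun t ht =>
    Finset.mem_range.1 (hI (Finset.mem_of_mem_erase (Finset.mem_sdiff.1 ht).1))
  have per := dv_add n J I
  have val := dv_val n J I
  have nc := nc_dv (n := n) hIJ
  rcases h with ⟨ha, hb, hc, hd⟩ | ⟨ha, hb, hc, hd⟩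
  · have hdn := lt_of' d hd
    have mb := minus b hb
    have md := minus d hd
    by_cases hax : a = x
    · subst hax
      have pc := plus c hc (by omega)
      have md' : dv n J I ((d : ℤ) + (-1) * n) = -1 := by
        have := dv_add n J I ((d : ℤ) + (-1) * n)
        rw [show (d : ℤ) + (-1) * n + n = d by ring] at this
        omega
      exact gap_of per val nc (p := (d : ℤ) + (-1) * n) (x := (a : ℤ)) (q := b) (r := c)
        (by omega) (by omega) (by omega) (by omega) md' (xz ha) mb pc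
    · have pa := plus a ha hax
      by_cases hcx : c = x
      · subst hcx
        have pa' : dv n J I ((a : ℤ) + n) = 1 := by rw [dv_add]; exact pa
        exact gap_of per val nc (p := (b : ℤ)) (x := (c : ℤ)) (q := d) (r := (a : ℤ) + n)
          (by omega) (by omega) (by omega) (by omega) mb (xz hc) md pa'
      · have pc := plus c hc hcx
        exact (nc a b c d (by omega) (by omega) (by omega) (by omega) (by omega) (by omega)
          (by omega) (by omega)).elim
  · have hdn := lt_of d hd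
    have ma := minus a ha
    have mc := minus c hc
    have ma' : dv n J I ((a : ℤ) + n) = -1 := by rw [dv_add]; exact ma
    by_cases hbx : b = x
    · subst hbx
      have pd := plus d hd (by omega)
      exact gap_of per val nc (p := (a : ℤ)) (x := (b : ℤ)) (q := c) (r := d)
        (by omega) (by omega) (by omega) (by omega) ma (xz hb) mc pd
    · have pb := plus b hb hbx
      by_cases hdx : d = x
      · subst hdx
        have pb' : dv n J I ((b : ℤ) + n) = 1 := by rw [dv_add]; exact pb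
        exact gap_of per val nc (p := (c : ℤ)) (x := (d : ℤ)) (q := (a : ℤ) + n)
          (r := (b : ℤ) + n)
          (by omega) (by omega) (by omega) (by omega) mc (xz hd) ma' pb'
      · have pd := plus d hd hdx
        exact (nc b c d ((a : ℤ) + n) (by omega) (by omega) (by omega) (by omega) (by omega)
          (by omega) (by omega) (by omega)).elim

theorem Cov.shift {n : ℤ} {I : Set ℤ} {S : Set (ℤ → ℤ)} (C : Cfg n I S) {e : ℤ}
    (h : Cov n S e) (k : ℤ) : Cov n S (e + k * n) := by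
  obtain ⟨s, hs, y, y', g, h1, h2⟩ := h
  exact ⟨s, hs, _, _, g.shift (C.per s hs) k, by omega, by omega⟩

/-- **Apex lemma.** -/
theorem apex (n : ℕ) (I : Finset ℕ) (hI : I ⊆ Finset.range n) (h2 : 2 ≤ I.card)
    (F : Set (Finset ℕ)) (hF : ∀ J ∈ F, J ⊆ Finset.range n) (hFI : ∀ J ∈ F, ¬ Cr J I)
    (hFF : ∀ J ∈ F, ∀ K ∈ F, ¬ Cr J K) :
    ∃ x ∈ I, ∃ y ∈ I, x ≠ y ∧ (∀ J ∈ F, ¬ Cr J (I.erase x)) ∧ (∀ J ∈ F, ¬ Cr J (I.erase y)) := by
  classical
  have hn : 0 < n := by
    obtain ⟨x, hx⟩ := Finset.card_pos.1 (lt_of_lt_of_le (by norm_num) h2)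
    have := Finset.mem_range.1 (hI hx)
    omega
  have C : Cfg (n : ℤ) {a : ℤ | res n a ∈ I} ((fun J => dv n J I) '' F) :=
    { pos := by exact_mod_cast hn
      perI := by
        intro a
        show res n (a + n) ∈ I ↔ res n a ∈ I
        rw [res_add]
      per := by
        rintro _ ⟨J, hJ, rfl⟩ a
        exact dv_add n J I a
      onI := by
        rintro _ ⟨J, hJ, rfl⟩ a ha
        have ha' : res n a ∈ I := ha
        have hI1 : ind I (res n a) = 1 := by simp [ind, ha']
        show dv n J I a = 0 ∨ dv n J I a = -1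
        unfold dv
        rcases ind_cases J (res n a) with ⟨h1, h2⟩ | ⟨h1, h2⟩ <;> rw [h1, hI1] <;> norm_num
      offI := by
        rintro _ ⟨J, hJ, rfl⟩ a ha
        have ha' : res n a ∉ I := ha
        have hI1 : ind I (res n a) = 0 := by simp [ind, ha']
        show dv n J I a = 0 ∨ dv n J I a = 1
        unfold dv
        rcases ind_cases J (res n a) with ⟨h1, h2⟩ | ⟨h1, h2⟩ <;> rw [h1, hI1] <;> norm_num
      nc := by
        rintro _ ⟨J, hJ, rfl⟩ _ ⟨K, hK, rfl⟩
        have : (fun a => dv n J I a - dv n K I a) = dv n J K := by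
          funext a; unfold dv; ring
        show NC n (fun a => dv n J I a - dv n K I a)
        rw [this]
        exact nc_dv (hFF J hJ K hK) }
  have notcov : ∀ e : ℤ, res n e ∈ I → ¬ Cov n ((fun J => dv n J I) '' F) e →
      ∀ J ∈ F, ¬ Cr J (I.erase (res n e)) := by
    intro e he hnc J hJ hcr
    apply hnc
    obtain ⟨y, y', g, h1, h3⟩ := cov_of_cr hI (hF J hJ) (hFI J hJ) he hcr
    have hcov : Cov n ((fun J => dv n J I) '' F) ((res n e : ℕ) : ℤ) :=
      ⟨_, ⟨J, hJ, rfl⟩, y, y', g, h1, h3⟩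
    have := hcov.shift C (e / n)
    have e2 : ((res n e : ℕ) : ℤ) + e / n * n = e := by
      unfold res
      have h0 := Int.emod_nonneg e (b := (n : ℤ)) (by omega)
      have h4 := Int.emod_add_mul_ediv e (n : ℤ)
      rw [Int.toNat_of_nonneg h0]
      linarith [mul_comm (n : ℤ) (e / n)]
    rwa [e2] at this
  have two : ∃ a ∈ {a : ℤ | res n a ∈ I}, ∃ b ∈ {a : ℤ | res n a ∈ I}, ¬ (n : ℤ) ∣ a - b := by
    obtain ⟨x, hx, y, hy, hxy⟩ := Finset.one_lt_card.1 (show 1 < I.card by omega)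
    have hxn := Finset.mem_range.1 (hI hx)
    have hyn := Finset.mem_range.1 (hI hy)
    refine ⟨x, ?_, y, ?_, ?_⟩
    · show res n x ∈ I
      rw [res_natCast hxn]; exact hx
    · show res n y ∈ I
      rw [res_natCast hyn]; exact hy
    · rcases lt_or_gt_of_ne hxy with h | h
      · intro hd
        exact not_dvd_of_lt (n := (n : ℤ)) (a := x) (b := y) (by omega) (by omega)
          (dvd_symm_sub hd)
      · exact not_dvd_of_lt (n := (n : ℤ)) (a := y) (b := x) (by omega) (by omega)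
  obtain ⟨e1, he1, _, hc1⟩ := main n _ _ _ C le_rfl two 0
  obtain ⟨e2, he2, hne, hc2⟩ := main n _ _ _ C le_rfl two e1
  refine ⟨res n e1, he1, res n e2, he2, ?_, notcov e1 he1 hc1, notcov e2 he2 hc2⟩
  intro h
  apply hne
  unfold res at h
  have h1 := Int.emod_nonneg e1 (b := (n : ℤ)) (by omega)
  have h3 := Int.emod_nonneg e2 (b := (n : ℤ)) (by omega)
  have h4 : e1 % (n : ℤ) = e2 % (n : ℤ) := by omega
  exact Int.ModEq.dvd h4

end Pool.Agent.W296.WS
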