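import Pool.Agent.W296.WS.Apex

set_option autoImplicit false

/-!
# The apex lemma for finite sets of `Fin n`
-/

namespace Pool.Agent.W296.WS

/-- The sets `I` and `J` cross. -/
def CrossF {n : ℕ} (I J : Finset (Fin n)) : Prop := ∃ a b c d : Fin n, a < b ∧ b < c ∧ c < d ∧
  ((a ∈ I \ J ∧ b ∈ J \ I ∧ c ∈ I \ J ∧ d ∈ J \ I) ∨
    (a ∈ J \ I ∧ b ∈ I \ J ∧ c ∈ J \ I ∧ d ∈ I \ J))

theorem crossF_iff {n : ℕ} (I J : Finset (Fin n)) :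
    CrossF I J ↔ Cr (I.map Fin.valEmbedding) (J.map Fin.valEmbedding) := by
  have key : ∀ (A B : Finset (Fin n)) (x : ℕ), x ∈ A.map Fin.valEmbedding \ B.map Fin.valEmbedding ↔
      ∃ y : Fin n, y.1 = x ∧ y ∈ A \ B := by
    intro A B x
    rw [← Finset.map_sdiff, Finset.mem_map]
    constructor
    · rintro ⟨y, hy, rfl⟩
      exact ⟨y, rfl, hy⟩
    · rintro ⟨y, rfl, hy⟩
      exact ⟨y, hy, rfl⟩
  unfold CrossF Cr
  constructor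
  · rintro ⟨a, b, c, d, h1, h2, h3, h⟩
    refine ⟨a, b, c, d, h1, h2, h3, ?_⟩
    rcases h with ⟨ha, hb, hc, hd⟩ | ⟨ha, hb, hc, hd⟩
    · left
      exact ⟨(key _ _ _).2 ⟨a, rfl, ha⟩, (key _ _ _).2 ⟨b, rfl, hb⟩, (key _ _ _).2 ⟨c, rfl, hc⟩,
        (key _ _ _).2 ⟨d, rfl, hd⟩⟩
    · right
      exact ⟨(key _ _ _).2 ⟨a, rfl, ha⟩, (key _ _ _).2 ⟨b, rfl, hb⟩, (key _ _ _).2 ⟨c, rfl, hc⟩,
        (key _ _ _).2 ⟨d, rfl, hd⟩⟩
  · rintro ⟨a, b, c, d, h1, h2, h3, h⟩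
    rcases h with ⟨ha, hb, hc, hd⟩ | ⟨ha, hb, hc, hd⟩
    all_goals
      obtain ⟨a', rfl, ha'⟩ := (key _ _ _).1 ha
      obtain ⟨b', rfl, hb'⟩ := (key _ _ _).1 hb
      obtain ⟨c', rfl, hc'⟩ := (key _ _ _).1 hc
      obtain ⟨d', rfl, hd'⟩ := (key _ _ _).1 hd
    · exact ⟨a', b', c', d', h1, h2, h3, Or.inl ⟨ha', hb', hc', hd'⟩⟩
    · exact ⟨a', b', c', d', h1, h2, h3, Or.inr ⟨ha', hb', hc', hd'⟩⟩

/-- **Apex lemma** for sets of `Fin n`. -/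
theorem apexF {n : ℕ} (J : Finset (Fin n)) (hJ : 2 ≤ J.card) (F : Finset (Finset (Fin n)))
    (hF : ∀ I ∈ F, ∀ I' ∈ F, ¬ CrossF I I') (hJF : ∀ I ∈ F, ¬ CrossF I J) :
    ∃ a ∈ J, ∃ b ∈ J, a ≠ b ∧
      ∀ I ∈ F, ¬ CrossF I (J.erase a) ∧ ¬ CrossF I (J.erase b) := by
  classical
  have hsub : ∀ A : Finset (Fin n), A.map Fin.valEmbedding ⊆ Finset.range n := by
    intro A x hx
    obtain ⟨y, _, rfl⟩ := Finset.mem_map.1 hx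
    exact Finset.mem_range.2 y.2
  obtain ⟨x, hx, y, hy, hxy, h1, h2⟩ := apex n (J.map Fin.valEmbedding) (hsub J)
    (by rw [Finset.card_map]; exact hJ) {A | ∃ I ∈ F, A = I.map Fin.valEmbedding}
    (by rintro _ ⟨I, _, rfl⟩; exact hsub I)
    (by rintro _ ⟨I, hI, rfl⟩ h; exact hJF I hI ((crossF_iff _ _).2 h))
    (by
      rintro _ ⟨I, hI, rfl⟩ _ ⟨I', hI', rfl⟩ h
      exact hF I hI I' hI' ((crossF_iff _ _).2 h))
  obtain ⟨a, ha, rfl⟩ := Finset.mem_map.1 hx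
  obtain ⟨b, hb, rfl⟩ := Finset.mem_map.1 hy
  refine ⟨a, ha, b, hb, fun h => hxy (by rw [h]), ?_⟩
  intro I hI
  constructor
  · intro h
    apply h1 _ ⟨I, hI, rfl⟩
    rw [crossF_iff, Finset.map_erase] at h
    exact h
  · intro h
    apply h2 _ ⟨I, hI, rfl⟩
    rw [crossF_iff, Finset.map_erase] at h
    exact h

end Pool.Agent.W296.WS
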