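import Mathlib

set_option autoImplicit false

/-!
# The apex lemma for cyclically separated sets, periodic form

Sign vectors are periodic functions `ℤ → ℤ` with values in `{-1,0,1}`.
-/

namespace Pool.Agent.W296.WS

/-- no cyclic pattern `+ - + -` in a window of length `n` -/
def NC (n : ℤ) (s : ℤ → ℤ) : Prop :=
  ∀ a b c d, a < b → b < c → c < d → d < a + n → 0 < s a → s b < 0 → 0 < s c → s d < 0 → False

/-- `(y,y')` is a gap of `s`. -/
def IsGap (n : ℤ) (s : ℤ → ℤ) (y y' : ℤ) : Prop :=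
  y < y' ∧ y' < y + n ∧ s y = -1 ∧ s y' = -1 ∧ (∀ a, y < a → a < y' → s a = 0) ∧ ∃ x, s x = 1

/-- the first nonzero value of `s` left of `y` is `+1` -/
def LeftE (s : ℤ → ℤ) (y : ℤ) : Prop := ∃ x, x < y ∧ s x = 1 ∧ ∀ a, x < a → a < y → s a = 0

/-- the first nonzero value of `s` right of `y` is `+1` -/
def RightE (s : ℤ → ℤ) (y : ℤ) : Prop := ∃ x, y < x ∧ s x = 1 ∧ ∀ a, y < a → a < x → s a = 0

structure Cfg (n : ℤ) (I : Set ℤ) (S : Set (ℤ → ℤ)) : Prop where
  pos : 0 < n
  perI : ∀ a, a + n ∈ I ↔ a ∈ I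
  per : ∀ s ∈ S, ∀ a, s (a + n) = s a
  onI : ∀ s ∈ S, ∀ a ∈ I, s a = 0 ∨ s a = -1
  offI : ∀ s ∈ S, ∀ a, a ∉ I → s a = 0 ∨ s a = 1
  nc : ∀ s ∈ S, ∀ t ∈ S, NC n (fun a => s a - t a)

/-- `e` is covered by a gap -/
def Cov (n : ℤ) (S : Set (ℤ → ℤ)) (e : ℤ) : Prop :=
  ∃ s ∈ S, ∃ y y', IsGap n s y y' ∧ y < e ∧ e < y'

/-- inclusion-maximal gaps -/
def MaxGap (n : ℤ) (S : Set (ℤ → ℤ)) (s : ℤ → ℤ) (y y' : ℤ) : Prop :=
  s ∈ S ∧ IsGap n s y y' ∧
    ∀ t ∈ S, ∀ u u', IsGap n t u u' → u ≤ y → y' ≤ u' → u = y ∧ u' = y'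

theorem per_mul {n : ℤ} {s : ℤ → ℤ} (h : ∀ a, s (a + n) = s a) (k : ℤ) (a : ℤ) :
    s (a + k * n) = s a := by
  induction k using Int.induction_on with
  | zero => simp
  | succ i ih => rw [← ih, ← h (a + i * n)]; congr 1; ring
  | pred i ih => rw [← ih, ← h (a + (-(i : ℤ) - 1) * n)]; congr 1; ring

theorem per_dvd {n : ℤ} {s : ℤ → ℤ} (h : ∀ a, s (a + n) = s a) {a b : ℤ} (hab : n ∣ a - b) :
    s a = s b := by
  obtain ⟨k, hk⟩ := hab
  have : a = b + k * n := by linarith [mul_comm n k]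
  rw [this, per_mul h]

theorem exists_shift {n : ℤ} (hn : 0 < n) (b x : ℤ) : ∃ x1, b < x1 ∧ x1 ≤ b + n ∧ n ∣ x1 - x := by
  refine ⟨b + 1 + (x - b - 1) % n, ?_, ?_, ?_⟩
  · have := Int.emod_nonneg (x - b - 1) hn.ne'; linarith
  · have := Int.emod_lt_of_pos (x - b - 1) hn; linarith
  · have h := Int.emod_add_mul_ediv (x - b - 1) n
    refine ⟨-((x - b - 1) / n), ?_⟩
    rw [mul_neg]
    linarith

section
variable {n : ℤ} {I : Set ℤ} {S : Set (ℤ → ℤ)}

theorem Cfg.mem_of_neg (C : Cfg n I S) {s : ℤ → ℤ} (hs : s ∈ S) {a : ℤ} (h : s a = -1) : a ∈ I := by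
  by_contra hc
  rcases C.offI s hs a hc with h' | h' <;> omega

theorem Cfg.notMem_of_pos (C : Cfg n I S) {s : ℤ → ℤ} (hs : s ∈ S) {a : ℤ} (h : s a = 1) :
    a ∉ I := by
  intro hc
  rcases C.onI s hs a hc with h' | h' <;> omega

theorem Cfg.perI' (C : Cfg n I S) {a b : ℤ} (hab : n ∣ a - b) : a ∈ I ↔ b ∈ I := by
  obtain ⟨k, hk⟩ := hab
  have : a = b + k * n := by linarith [mul_comm n k]
  subst this
  clear hk
  induction k using Int.induction_on with
  | zero => simp
  | succ i ih =>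
    have : b + (↑i + 1) * n = b + ↑i * n + n := by ring
    rw [this]
    exact (C.perI (b + i * n)).trans ih
  | pred i ih =>
    have : b + -↑i * n = b + (-(i : ℤ) - 1) * n + n := by ring
    rw [this] at ih
    exact (C.perI (b + (-(i : ℤ) - 1) * n)).symm.trans ih

/-- pair analysis -/
theorem pair (C : Cfg n I S) {s t : ℤ → ℤ} (hs : s ∈ S) (ht : t ∈ S) {y1 y1' y2 y2' : ℤ}
    (g1 : IsGap n s y1 y1') (g2 : IsGap n t y2 y2') (h12 : y1 < y2) (h21 : y2 < y1')
    (h22 : y1' < y2') (hP : LeftE t y2) : (∀ x, s x = 1 → t x = 1) ∧ ¬ RightE s y1' := by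
  obtain ⟨x2, hx2, tx2, tz⟩ := hP
  obtain ⟨_, g1b, g1c, g1d, g1e, _⟩ := g1
  obtain ⟨_, g2b, g2c, g2d, g2e, _⟩ := g2
  have pn := C.pos
  have pers := C.per s hs
  have pert := C.per t ht
  have hne : x2 ≠ y1 := by
    rintro rfl
    exact C.notMem_of_pos ht tx2 (C.mem_of_neg hs g1c)
  obtain ⟨w, hw1, hw2, hwD, hwt, hwt0⟩ : ∃ w, y1 ≤ w ∧ w < y2 ∧ s w - t w < 0 ∧ t w ≠ -1 ∧
      ∀ a, w < a → a < y2 → t a = 0 := by
    rcases lt_or_gt_of_ne hne with h | h
    · refine ⟨y1, le_rfl, h12, ?_, ?_, fun a ha hb => tz a (by omega) hb⟩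
      · rw [tz y1 h h12, g1c]; norm_num
      · rw [tz y1 h h12]; norm_num
    · refine ⟨x2, h.le, hx2, ?_, ?_, tz⟩
      · rw [g1e x2 h (by omega), tx2]; norm_num
      · rw [tx2]; norm_num
  have hy2n : y2' < w + n := by
    by_contra hc
    rcases (not_lt.1 hc).lt_or_eq with h | h
    · have := hwt0 (y2' - n) (by omega) (by omega)
      have h3 := pert (y2' - n)
      rw [sub_add_cancel] at h3
      omega
    · have h3 := pert w
      rw [h] at h3
      omega
  have hD2 : 0 < s y2 - t y2 := by rw [g1e y2 h12 h21, g2c]; norm_num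
  have hD1 : s y1' - t y1' < 0 := by rw [g2e y1' h21 h22, g1d]; norm_num
  have hDw : s (w + n) - t (w + n) < 0 := by rw [pers, pert]; exact hwD
  -- no plus in (y1', w + n)
  have key : ∀ x, y1' < x → x < w + n → ¬ (0 < s x - t x) := fun x hx1 hx2 hpos =>
    C.nc s hs t ht y2 y1' x (w + n) h21 hx1 hx2 (by omega) hD2 hD1 hpos hDw
  constructor
  · intro x hx
    obtain ⟨x1, h1, h2, h3⟩ := exists_shift pn y1 x
    have hsx1 : s x1 = 1 := by rw [per_dvd pers h3]; exact hx
    have htx1 : t x1 = t x := per_dvd pert h3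
    have e1 : x1 ≠ y1 + n := by
      rintro rfl
      rw [pers] at hsx1; omega
    have e2 : ¬ x1 < y1' := by
      intro h
      have := g1e x1 h1 h
      omega
    have e3 : x1 ≠ y1' := by
      rintro rfl
      omega
    have hk := key x1 (by omega) (by omega)
    have hni := C.notMem_of_pos hs hsx1
    rcases C.offI t ht x1 hni with h | h
    · exact absurd (by omega) hk
    · omega
  · rintro ⟨x0, hx0, sx0, sz⟩
    have hs2 : s y2' = -1 := by
      rcases C.onI s hs y2' (C.mem_of_neg ht g2d) with h | h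
      · exact absurd (by omega) (key y2' h22 hy2n)
      · exact h
    have hx0y : x0 < y2' := by
      by_contra hc
      rcases (not_lt.1 hc).lt_or_eq with h | h
      · have := sz y2' h22 h
        omega
      · rw [h] at hs2; omega
    have ht0 := g2e x0 (by omega) hx0y
    exact key x0 hx0 (by omega) (by omega)

theorem exists_max : ∀ (k : ℕ) (s : ℤ → ℤ), s ∈ S → ∀ y y' : ℤ, IsGap n s y y' →
    (n - (y' - y)).toNat ≤ k → ∃ t u u', MaxGap n S t u u' ∧ u ≤ y ∧ y' ≤ u' := by
  intro k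
  induction k with
  | zero =>
    intro s hs y y' g hk
    obtain ⟨g1, g2, _⟩ := g
    omega
  | succ k ih =>
    intro s hs y y' g hk
    by_cases hm : MaxGap n S s y y'
    · exact ⟨s, y, y', hm, le_rfl, le_rfl⟩
    · have : ∃ t ∈ S, ∃ u u', IsGap n t u u' ∧ u ≤ y ∧ y' ≤ u' ∧ ¬ (u = y ∧ u' = y') := by
        by_contra hc
        apply hm
        refine ⟨hs, g, ?_⟩
        intro t ht u u' hg h1 h2
        by_contra h3
        exact hc ⟨t, ht, u, u', hg, h1, h2, h3⟩
      obtain ⟨t, ht, u, u', hg, h1, h2, h3⟩ := this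
      have hg1 := hg.2.1
      have hg0 := hg.1
      obtain ⟨t', v, v', hM, hv1, hv2⟩ := ih t ht u u' hg (by
        have : u < y ∨ y' < u' := by
          by_contra hc
          push Not at hc
          exact h3 ⟨by omega, by omega⟩
        have g0 := g.1
        omega)
      exact ⟨t', v, v', hM, by omega, by omega⟩

theorem Cov.exists_max {e : ℤ} (h : Cov n S e) : ∃ s y y', MaxGap n S s y y' ∧ y < e ∧ e < y' := by
  obtain ⟨s, hs, y, y', g, h1, h2⟩ := h
  obtain ⟨t, u, u', hM, hu, hu'⟩ := Pool.Agent.W296.WS.exists_max _ s hs y y' g le_rfl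
  exact ⟨t, u, u', hM, by omega, by omega⟩

/-- the hypothesis on extreme end points -/
def HA (n : ℤ) (I : Set ℤ) (S : Set (ℤ → ℤ)) : Prop :=
  ∀ e ∈ I, Cov n S e → ∃ s y y', MaxGap n S s y y' ∧ ((y = e ∧ LeftE s y) ∨ (y' = e ∧ RightE s y'))

theorem descent (C : Cfg n I S) (hA : HA n I S) : ∀ (k : ℕ) (s t : ℤ → ℤ) (y1 y1' y2 y2' : ℤ),
    MaxGap n S s y1 y1' → MaxGap n S t y2 y2' → y1 < y2 → y2 < y1' → y1' < y2' → LeftE t y2 →
    ∀ x, s x = 1 → y2 < x → (x - y2).toNat ≤ k → False := by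
  intro k
  induction k with
  | zero =>
    intro s t y1 y1' y2 y2' _ _ _ _ _ _ x _ h1 h2
    omega
  | succ k ih =>
    intro s t y1 y1' y2 y2' hM1 hM2 h12 h21 h22 hL x hx hx2 hk
    obtain ⟨hs, g1, mx1⟩ := hM1
    have hM2' := hM2
    obtain ⟨ht, g2, mx2⟩ := hM2'
    obtain ⟨hXX, hR⟩ := pair C hs ht g1 g2 h12 h21 h22 hL
    have htx := hXX x hx
    have hxy : y2' < x := by
      have g2e := g2.2.2.2.2.1
      have g2d := g2.2.2.2.1
      by_contra hc
      rcases (not_lt.1 hc).lt_or_eq with h | h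
      · have := g2e x hx2 h
        omega
      · rw [h] at htx
        omega
    have hyI : y1' ∈ I := C.mem_of_neg hs g1.2.2.2.1
    have hcov : Cov n S y1' := ⟨t, ht, y2, y2', g2, h21, h22⟩
    obtain ⟨r, y3, y3', hM3, hor⟩ := hA y1' hyI hcov
    rcases hor with ⟨h3, hL3⟩ | ⟨h3, hR3⟩
    · have h23 : y2' < y3' := by
        by_contra hc
        have := hM3.2.2 t ht y2 y2' g2 (by omega) (by omega)
        omega
      exact ih t r y2 y2' y3 y3' hM2 hM3 (by omega) (by omega) h23 hL3 x htx (by omega) (by omega)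
    · have hEq : y3 = y1 := by
        rcases le_total y3 y1 with h | h
        · exact (mx1 r hM3.1 y3 y3' hM3.2.1 h (by omega)).1
        · exact ((hM3.2.2 s hs y1 y1' g1 h (by omega)).1).symm
      subst h3
      subst hEq
      exact (pair C hM3.1 ht hM3.2.1 g2 h12 h21 h22 hL).2 hR3

theorem no_left (C : Cfg n I S) (hA : HA n I S) {e : ℤ} (hc : Cov n S e)
    {t : ℤ → ℤ} {y' : ℤ} (hM : MaxGap n S t e y') (hL : LeftE t e) : False := by
  obtain ⟨s, u, u', hMs, h1, h2⟩ := hc.exists_max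
  have h3 : u' < y' := by
    by_contra hcon
    have := hM.2.2 s hMs.1 u u' hMs.2.1 (by omega) (by omega)
    omega
  obtain ⟨x, hx⟩ := hMs.2.1.2.2.2.2.2
  obtain ⟨x1, hx1, hx2, hx3⟩ := exists_shift C.pos e x
  exact descent C hA _ s t u u' e y' hMs hM h1 h2 h3 hL x1
    (by rw [per_dvd (C.per s hMs.1) hx3]; exact hx) hx1 le_rfl

/-! ## Reflection -/

theorem NC.neg {f : ℤ → ℤ} (hf : NC n f) (per : ∀ a, f (a + n) = f a) :
    NC n (fun a => f (-a)) := by
  intro a b c d hab hbc hcd hda pa nb pc nd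
  simp only at pa nb pc nd
  refine hf (-c) (-b) (-a) (-d + n) (by omega) (by omega) (by omega) (by omega) pc nb pa ?_
  rw [per]; exact nd

theorem Cfg.neg (C : Cfg n I S) : Cfg n {a | -a ∈ I} ((fun s a => s (-a)) '' S) where
  pos := C.pos
  perI := by
    intro a
    show -(a + n) ∈ I ↔ -a ∈ I
    rw [← C.perI (-(a + n))]
    ring_nf
  per := by
    rintro _ ⟨s, hs, rfl⟩ a
    show s (-(a + n)) = s (-a)
    rw [← C.per s hs (-(a + n))]
    ring_nf
  onI := by
    rintro _ ⟨s, hs, rfl⟩ a ha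
    exact C.onI s hs (-a) ha
  offI := by
    rintro _ ⟨s, hs, rfl⟩ a ha
    exact C.offI s hs (-a) ha
  nc := by
    rintro _ ⟨s, hs, rfl⟩ _ ⟨t, ht, rfl⟩
    exact (C.nc s hs t ht).neg (fun a => by simp only [C.per s hs a, C.per t ht a])

theorem IsGap.neg {s : ℤ → ℤ} {y y' : ℤ} (h : IsGap n s y y') :
    IsGap n (fun a => s (-a)) (-y') (-y) := by
  obtain ⟨h1, h2, h3, h4, h5, x, hx⟩ := h
  refine ⟨by omega, by omega, by simpa using h4, by simpa using h3, ?_, -x, by simpa using hx⟩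
  intro a ha hb
  exact h5 (-a) (by omega) (by omega)

theorem IsGap.of_neg {s : ℤ → ℤ} {y y' : ℤ} (h : IsGap n (fun a => s (-a)) y y') :
    IsGap n s (-y') (-y) := by
  have := h.neg
  simpa using this

theorem MaxGap.neg {s : ℤ → ℤ} {y y' : ℤ} (h : MaxGap n S s y y') :
    MaxGap n ((fun s a => s (-a)) '' S) (fun a => s (-a)) (-y') (-y) := by
  obtain ⟨hs, g, hm⟩ := h
  refine ⟨⟨s, hs, rfl⟩, g.neg, ?_⟩
  rintro _ ⟨t, ht, rfl⟩ u u' hg h1 h2
  have := hm t ht (-u') (-u) hg.of_neg (by omega) (by omega)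
  omega

theorem Cov.of_neg {e : ℤ} (h : Cov n ((fun s a => s (-a)) '' S) e) : Cov n S (-e) := by
  obtain ⟨_, ⟨s, hs, rfl⟩, y, y', g, h1, h2⟩ := h
  exact ⟨s, hs, -y', -y, g.of_neg, by omega, by omega⟩

theorem Cov.neg {e : ℤ} (h : Cov n S e) : Cov n ((fun s a => s (-a)) '' S) (-e) := by
  obtain ⟨s, hs, y, y', g, h1, h2⟩ := h
  exact ⟨_, ⟨s, hs, rfl⟩, -y', -y, g.neg, by omega, by omega⟩

theorem RightE.neg {s : ℤ → ℤ} {y : ℤ} (h : RightE s y) : LeftE (fun a => s (-a)) (-y) := by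
  obtain ⟨x, h1, h2, h3⟩ := h
  exact ⟨-x, by omega, by simpa using h2, fun a ha hb => h3 (-a) (by omega) (by omega)⟩

theorem LeftE.neg {s : ℤ → ℤ} {y : ℤ} (h : LeftE s y) : RightE (fun a => s (-a)) (-y) := by
  obtain ⟨x, h1, h2, h3⟩ := h
  exact ⟨-x, by omega, by simpa using h2, fun a ha hb => h3 (-a) (by omega) (by omega)⟩

theorem HA.neg (hA : HA n I S) : HA n {a | -a ∈ I} ((fun s a => s (-a)) '' S) := by
  intro e he hc
  obtain ⟨s, y, y', hM, hor⟩ := hA (-e) he hc.of_neg
  refine ⟨_, -y', -y, hM.neg, ?_⟩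
  rcases hor with ⟨h, hL⟩ | ⟨h, hR⟩
  · right
    exact ⟨by omega, hL.neg⟩
  · left
    exact ⟨by omega, hR.neg⟩

theorem no_cov (C : Cfg n I S) (hA : HA n I S) {e : ℤ} (he : e ∈ I) (hc : Cov n S e) : False := by
  obtain ⟨s, y, y', hM, ⟨h, hL⟩ | ⟨h, hR⟩⟩ := hA e he hc
  · subst h
    exact no_left C hA hc hM hL
  · subst h
    exact no_left C.neg hA.neg hc.neg hM.neg hR.neg

/-! ## Contraction -/

/-- set `s` to zero at the class of `e` -/
noncomputable def zero (n : ℤ) (e : ℤ) (s : ℤ → ℤ) : ℤ → ℤ := fun a =>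
  haveI := Classical.propDecidable (n ∣ a - e)
  if n ∣ a - e then 0 else s a

theorem zero_of {n e a : ℤ} {s : ℤ → ℤ} (h : n ∣ a - e) : zero n e s a = 0 := by
  unfold zero; rw [if_pos h]

theorem zero_of_not {n e a : ℤ} {s : ℤ → ℤ} (h : ¬ n ∣ a - e) : zero n e s a = s a := by
  unfold zero; rw [if_neg h]

theorem dvd_add_self_iff {n a e : ℤ} : n ∣ a + n - e ↔ n ∣ a - e := by
  have : a + n - e = (a - e) + n := by ring
  rw [this]
  exact dvd_add_self_right

theorem Cfg.contract (C : Cfg n I S) (e : ℤ) :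
    Cfg n {a | a ∈ I ∧ ¬ n ∣ a - e} (zero n e '' S) where
  pos := C.pos
  perI := by
    intro a
    show (a + n ∈ I ∧ ¬ n ∣ a + n - e) ↔ (a ∈ I ∧ ¬ n ∣ a - e)
    rw [C.perI, dvd_add_self_iff]
  per := by
    rintro _ ⟨s, hs, rfl⟩ a
    by_cases h : n ∣ a - e
    · rw [zero_of h, zero_of (dvd_add_self_iff.2 h)]
    · rw [zero_of_not h, zero_of_not (fun h' => h (dvd_add_self_iff.1 h')), C.per s hs]
  onI := by
    rintro _ ⟨s, hs, rfl⟩ a ⟨ha, hb⟩
    rw [zero_of_not hb]
    exact C.onI s hs a ha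
  offI := by
    rintro _ ⟨s, hs, rfl⟩ a ha
    by_cases h : n ∣ a - e
    · left; exact zero_of h
    · rw [zero_of_not h]
      exact C.offI s hs a (fun h' => ha ⟨h', h⟩)
  nc := by
    rintro _ ⟨s, hs, rfl⟩ _ ⟨t, ht, rfl⟩ a b c d hab hbc hcd hda pa nb pc nd
    have aux : ∀ x, zero n e s x - zero n e t x ≠ 0 →
        zero n e s x - zero n e t x = s x - t x := by
      intro x hx
      by_cases h : n ∣ x - e
      · rw [zero_of h, zero_of h] at hx
        exact absurd rfl hx
      · rw [zero_of_not h, zero_of_not h]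
    simp only at pa nb pc nd
    rw [aux a (by omega)] at pa
    rw [aux b (by omega)] at nb
    rw [aux c (by omega)] at pc
    rw [aux d (by omega)] at nd
    exact C.nc s hs t ht a b c d hab hbc hcd hda pa nb pc nd

theorem not_dvd_of_lt {n a b : ℤ} (h1 : a < b) (h2 : b < a + n) : ¬ n ∣ b - a := by
  rintro ⟨k, hk⟩
  have hn : 0 < n := by omega
  have hk0 : 0 < k := by
    by_contra h
    push Not at h
    nlinarith
  have hk1 : k < 1 := by
    by_contra h
    push Not at h
    nlinarith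
  omega

theorem dvd_trans_sub {n a b c : ℤ} (h1 : n ∣ a - b) (h2 : n ∣ b - c) : n ∣ a - c := by
  have : a - c = (a - b) + (b - c) := by ring
  rw [this]
  exact dvd_add h1 h2

theorem dvd_symm_sub {n a b : ℤ} (h1 : n ∣ a - b) : n ∣ b - a := by
  have : b - a = -(a - b) := by ring
  rw [this]
  exact h1.neg_right

/-- a nonzero value to the left of `y` closest to `y` -/
theorem exists_prev {s : ℤ → ℤ} {x y : ℤ} (hxy : x < y) (hx : s x ≠ 0) :
    ∃ z, x ≤ z ∧ z < y ∧ s z ≠ 0 ∧ ∀ a, z < a → a < y → s a = 0 := by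
  have key : ∀ k : ℕ, ∀ x : ℤ, x < y → s x ≠ 0 → (y - x).toNat ≤ k →
      ∃ z, x ≤ z ∧ z < y ∧ s z ≠ 0 ∧ ∀ a, z < a → a < y → s a = 0 := by
    intro k
    induction k with
    | zero => intro x h1 _ h2; omega
    | succ k ih =>
      intro x h1 h2 h3
      by_cases h : ∀ a, x < a → a < y → s a = 0
      · exact ⟨x, le_rfl, h1, h2, h⟩
      · push Not at h
        obtain ⟨a, ha1, ha2, ha3⟩ := h
        obtain ⟨z, hz1, hz⟩ := ih a ha2 ha3 (by omega)
        exact ⟨z, by omega, hz⟩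
  exact key _ x hxy hx le_rfl

theorem exists_next {s : ℤ → ℤ} {x y : ℤ} (hxy : y < x) (hx : s x ≠ 0) :
    ∃ z, z ≤ x ∧ y < z ∧ s z ≠ 0 ∧ ∀ a, y < a → a < z → s a = 0 := by
  obtain ⟨z, h1, h2, h3, h4⟩ := exists_prev (s := fun a => s (-a)) (x := -x) (y := -y)
    (by omega) (by simpa using hx)
  refine ⟨-z, by omega, by omega, h3, ?_⟩
  intro a ha hb
  have := h4 (-a) (by omega) (by omega)
  simpa using this

/-- If a point `x` of a gap of `s` is not covered after contraction of `e`, then `e` is an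
extreme end point of the gap. -/
theorem extreme_of_uncovered (C : Cfg n I S) {e x : ℤ}
    (hnc : ¬ Cov n (zero n e '' S) x) {s : ℤ → ℤ} (hs : s ∈ S) {y y' : ℤ}
    (g : IsGap n s y y') (h1 : y < x) (h2 : x < y') (heI : e ∈ I) :
    (n ∣ y - e ∧ LeftE s y) ∨ (n ∣ y' - e ∧ RightE s y') := by
  obtain ⟨g1, g2, g3, g4, g5, x0, hx0⟩ := g
  have per := C.per s hs
  -- a plus in (y', y + n)
  obtain ⟨p, hp1, hp2, hp3⟩ := exists_shift C.pos y x0
  have hp : s p = 1 := by rw [per_dvd per hp3]; exact hx0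
  have hpy' : y' < p := by
    by_contra hc
    rcases (not_lt.1 hc).lt_or_eq with h | h
    · have := g5 p hp1 h; omega
    · rw [h] at hp; omega
  have hpyn : p < y + n := by
    rcases hp2.lt_or_eq with h | h
    · exact h
    · rw [h, per] at hp; omega
  have hpe : ¬ n ∣ p - e := by
    intro h
    have := (C.perI' h).2 heI
    exact C.notMem_of_pos hs hp this
  have hplus : zero n e s p = 1 := by rw [zero_of_not hpe]; exact hp
  by_cases hye : n ∣ y - e
  · left
    refine ⟨hye, ?_⟩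
    -- previous nonzero
    have hpn : s (p - n) = 1 := by
      have := per (p - n)
      rw [sub_add_cancel] at this
      omega
    obtain ⟨z, hz1, hz2, hz3, hz4⟩ := exists_prev (s := s) (x := p - n) (y := y) (by omega)
      (by omega)
    by_cases hzp : s z = 1
    · exact ⟨z, hz2, hzp, hz4⟩
    · exfalso
      have hzm : s z = -1 := by
        by_cases hzI : z ∈ I
        · rcases C.onI s hs z hzI with h | h
          · exact absurd h hz3
          · exact h
        · rcases C.offI s hs z hzI with h | h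
          · exact absurd h hz3
          · exact absurd h hzp
      apply hnc
      have hzy : ¬ n ∣ y - z := not_dvd_of_lt hz2 (by omega)
      have hze : ¬ n ∣ z - e := fun h => hzy (dvd_trans_sub hye (dvd_symm_sub h))
      have hy'y : ¬ n ∣ y' - y := not_dvd_of_lt g1 g2
      have hy'e : ¬ n ∣ y' - e := fun h => hy'y (dvd_trans_sub h (dvd_symm_sub hye))
      refine ⟨zero n e s, ⟨s, hs, rfl⟩, z, y', ⟨by omega, ?_, ?_, ?_, ?_, p, hplus⟩, by omega, h2⟩
      · have : p - n ≠ z := by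
          intro h; rw [h] at hpn; exact hzp hpn
        omega
      · rw [zero_of_not hze]; exact hzm
      · rw [zero_of_not hy'e]; exact g4
      · intro a ha hb
        by_cases hae : n ∣ a - e
        · exact zero_of hae
        · rw [zero_of_not hae]
          rcases lt_trichotomy a y with h | h | h
          · exact hz4 a ha h
          · rw [h] at hae; exact absurd hye hae
          · exact g5 a h hb
  · by_cases hy'e : n ∣ y' - e
    · right
      refine ⟨hy'e, ?_⟩
      obtain ⟨z, hz1, hz2, hz3, hz4⟩ := exists_next (s := s) (x := p) (y := y') hpy' (by omega)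
      by_cases hzp : s z = 1
      · exact ⟨z, hz2, hzp, hz4⟩
      · exfalso
        have hzm : s z = -1 := by
          by_cases hzI : z ∈ I
          · rcases C.onI s hs z hzI with h | h
            · exact absurd h hz3
            · exact h
          · rcases C.offI s hs z hzI with h | h
            · exact absurd h hz3
            · exact absurd h hzp
        apply hnc
        have hzlt : z < p := by
          rcases hz1.lt_or_eq with h | h
          · exact h
          · rw [h] at hzp; exact absurd hp hzp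
        have hzy : ¬ n ∣ z - y' := not_dvd_of_lt hz2 (by omega)
        have hze : ¬ n ∣ z - e := fun h => hzy (dvd_trans_sub h (dvd_symm_sub hy'e))
        refine ⟨zero n e s, ⟨s, hs, rfl⟩, y, z, ⟨by omega, by omega, ?_, ?_, ?_, p, hplus⟩,
          h1, by omega⟩
        · rw [zero_of_not hye]; exact g3
        · rw [zero_of_not hze]; exact hzm
        · intro a ha hb
          by_cases hae : n ∣ a - e
          · exact zero_of hae
          · rw [zero_of_not hae]
            rcases lt_trichotomy a y' with h | h | h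
            · exact g5 a ha h
            · rw [h] at hae; exact absurd hy'e hae
            · exact hz4 a h hb
    · exfalso
      apply hnc
      refine ⟨zero n e s, ⟨s, hs, rfl⟩, y, y', ⟨g1, g2, ?_, ?_, ?_, p, hplus⟩, h1, h2⟩
      · rw [zero_of_not hye]; exact g3
      · rw [zero_of_not hy'e]; exact g4
      · intro a ha hb
        by_cases hae : n ∣ a - e
        · exact zero_of hae
        · rw [zero_of_not hae]
          exact g5 a ha hb

/-- shifting gaps -/
theorem IsGap.shift {s : ℤ → ℤ} (per : ∀ a, s (a + n) = s a) {y y' : ℤ} (g : IsGap n s y y')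
    (k : ℤ) : IsGap n s (y + k * n) (y' + k * n) := by
  obtain ⟨g1, g2, g3, g4, g5, x, hx⟩ := g
  refine ⟨by omega, by omega, by rw [per_mul per]; exact g3, by rw [per_mul per]; exact g4,
    ?_, x, hx⟩
  intro a ha hb
  have := g5 (a + (-k) * n) (by rw [neg_mul]; omega) (by rw [neg_mul]; omega)
  rw [per_mul per] at this
  exact this

theorem MaxGap.shift (C : Cfg n I S) {s : ℤ → ℤ} {y y' : ℤ} (h : MaxGap n S s y y') (k : ℤ) :
    MaxGap n S s (y + k * n) (y' + k * n) := by
  obtain ⟨hs, g, hm⟩ := h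
  refine ⟨hs, g.shift (C.per s hs) k, ?_⟩
  intro t ht u u' hg h1 h2
  have := hm t ht (u + (-k) * n) (u' + (-k) * n) (hg.shift (C.per t ht) (-k))
    (by rw [neg_mul]; omega) (by rw [neg_mul]; omega)
  rw [neg_mul] at this
  omega

theorem LeftE.shift {s : ℤ → ℤ} (per : ∀ a, s (a + n) = s a) {y : ℤ} (h : LeftE s y) (k : ℤ) :
    LeftE s (y + k * n) := by
  obtain ⟨x, h1, h2, h3⟩ := h
  refine ⟨x + k * n, by omega, by rw [per_mul per]; exact h2, ?_⟩
  intro a ha hb
  have := h3 (a + (-k) * n) (by rw [neg_mul]; omega) (by rw [neg_mul]; omega)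
  rw [per_mul per] at this
  exact this

theorem RightE.shift {s : ℤ → ℤ} (per : ∀ a, s (a + n) = s a) {y : ℤ} (h : RightE s y) (k : ℤ) :
    RightE s (y + k * n) := by
  obtain ⟨x, h1, h2, h3⟩ := h
  refine ⟨x + k * n, by omega, by rw [per_mul per]; exact h2, ?_⟩
  intro a ha hb
  have := h3 (a + (-k) * n) (by rw [neg_mul]; omega) (by rw [neg_mul]; omega)
  rw [per_mul per] at this
  exact this

end

open Classical in
/-- **Apex lemma, periodic form**: at least two classes of `I` are not covered. -/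
theorem main (n : ℤ) : ∀ (k : ℕ) (I : Set ℤ) (S : Set (ℤ → ℤ)), Cfg n I S →
    ((Finset.Ico 0 n).filter (fun a => a ∈ I)).card ≤ k →
    (∃ a ∈ I, ∃ b ∈ I, ¬ n ∣ a - b) → ∀ z : ℤ, ∃ e ∈ I, ¬ n ∣ e - z ∧ ¬ Cov n S e := by
  intro k
  induction k with
  | zero =>
    intro I S C hk h2 z
    exfalso
    obtain ⟨a, ha, _⟩ := h2
    have hmem : a % n ∈ (Finset.Ico 0 n).filter (fun a => a ∈ I) := by
      rw [Finset.mem_filter, Finset.mem_Ico]
      refine ⟨⟨Int.emod_nonneg _ C.pos.ne', Int.emod_lt_of_pos _ C.pos⟩, ?_⟩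
      refine (C.perI' (b := a) ?_).2 ha
      exact ⟨-(a / n), by have := Int.emod_add_mul_ediv a n; rw [mul_neg]; linarith⟩
    have : 0 < ((Finset.Ico 0 n).filter (fun a => a ∈ I)).card := Finset.card_pos.2 ⟨_, hmem⟩
    omega
  | succ k ih =>
    intro I S C hk h2 z
    by_contra hcon
    push Not at hcon
    -- hcon : all e in I, e not ≡ z are covered
    have hA : HA n I S := by
      intro e he hce
      -- contraction
      have C' := C.contract e
      have hcard : ((Finset.Ico 0 n).filter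
          (fun a => a ∈ {a | a ∈ I ∧ ¬ n ∣ a - e})).card ≤ k := by
        have hlt : ((Finset.Ico 0 n).filter (fun a => a ∈ {a | a ∈ I ∧ ¬ n ∣ a - e})).card <
            ((Finset.Ico 0 n).filter (fun a => a ∈ I)).card := by
          apply Finset.card_lt_card
          rw [Finset.ssubset_iff_of_subset]
          · refine ⟨e % n, ?_, ?_⟩
            · rw [Finset.mem_filter, Finset.mem_Ico]
              refine ⟨⟨Int.emod_nonneg _ C.pos.ne', Int.emod_lt_of_pos _ C.pos⟩, ?_⟩
              refine (C.perI' (b := e) ?_).2 he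
              exact ⟨-(e / n), by have := Int.emod_add_mul_ediv e n; rw [mul_neg]; linarith⟩
            · rw [Finset.mem_filter]
              rintro ⟨_, _, h⟩
              apply h
              exact ⟨-(e / n), by have := Int.emod_add_mul_ediv e n; rw [mul_neg]; linarith⟩
          · intro a ha
            rw [Finset.mem_filter] at ha ⊢
            exact ⟨ha.1, ha.2.1⟩
        omega
      obtain ⟨s, hs, y, y', g, h1, h3⟩ := hce
      have hyI := C.mem_of_neg hs g.2.2.1
      have hy'I := C.mem_of_neg hs g.2.2.2.1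
      have hyy' : ¬ n ∣ y' - y := not_dvd_of_lt g.1 g.2.1
      have hye : ¬ n ∣ e - y := not_dvd_of_lt h1 (by have := g.2.1; omega)
      have hy'e : ¬ n ∣ y' - e := not_dvd_of_lt h3 (by have := g.2.1; omega)
      obtain ⟨x, ⟨hxI, hxe⟩, hxz, hxc⟩ := ih _ _ C' (by convert hcard)
        ⟨y', ⟨hy'I, hy'e⟩, y, ⟨hyI, fun h => hye (dvd_symm_sub h)⟩, hyy'⟩ z
      have hxcov := hcon x hxI hxz
      obtain ⟨t, u, u', hM, hu1, hu2⟩ := hxcov.exists_max
      rcases extreme_of_uncovered C hxc hM.1 hM.2.1 hu1 hu2 he with ⟨hd, hL⟩ | ⟨hd, hR⟩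
      · obtain ⟨m, hm⟩ := hd
        have hm' : u + (-m) * n = e := by rw [neg_mul]; linarith [mul_comm n m]
        refine ⟨t, _, _, hM.shift C (-m), Or.inl ⟨hm', hL.shift (C.per t hM.1) (-m)⟩⟩
      · obtain ⟨m, hm⟩ := hd
        have hm' : u' + (-m) * n = e := by rw [neg_mul]; linarith [mul_comm n m]
        refine ⟨t, _, _, hM.shift C (-m), Or.inr ⟨hm', hR.shift (C.per t hM.1) (-m)⟩⟩
    obtain ⟨a, ha, b, hb, hab⟩ := h2
    have : ∃ e ∈ I, ¬ n ∣ e - z := by
      by_cases h : n ∣ a - z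
      · refine ⟨b, hb, fun h' => hab (dvd_trans_sub h (dvd_symm_sub h'))⟩
      · exact ⟨a, ha, h⟩
    obtain ⟨e, he, hez⟩ := this
    exact no_cov C hA he (hcon e he hez)

end Pool.Agent.W296.WS
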