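import Pool.Agent.W296.WS.Apex

set_option autoImplicit false

/-!
# Interface: flag complexes of a relation and the removal lemma
-/

namespace Pool.Agent.W296.WS

/-- geometric realisation of the flag complex of `adj` on the vertices in `S` -/
def X {V : Type} [Fintype V] (adj : V → V → Prop) (S : Set V) : Set (V → ℝ) :=
  {x | (∀ v, 0 ≤ x v) ∧ ∑ v, x v = 1 ∧ (∀ v, x v ≠ 0 → v ∈ S) ∧
    ∀ v w, x v ≠ 0 → x w ≠ 0 → adj v w}

/-- Statement (T), the removal lemma. -/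
def StmT : Prop := ∀ (V : Type) [Fintype V] (adj : V → V → Prop), (∀ v, adj v v) →
  (∀ v w, adj v w → adj w v) → ∀ (S R : Set V) (v : V), v ∉ S → R ⊆ S → (∀ r ∈ R, adj r v) →
  (∀ r ∈ R, ∀ r' ∈ R, adj r r') →
  (∀ F : Set V, F ⊆ S → (∀ a ∈ F, adj a v) → (∀ a ∈ F, ∀ b ∈ F, adj a b) →
    ∃ r ∈ R, ∀ a ∈ F, adj a r) →
  Nonempty (ContinuousMap.HomotopyEquiv (X adj (insert v S)) (X adj S))

end Pool.Agent.W296.WS
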